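import Pool.Agent.R688.AN.Final2

/-!
# MP_abdb7d_ag, Q1: `F`-anti-nilpotency does not localize

The ring is `R = S ⊕ S p ⊕ S q` over `S = 𝔽₂[x, y, u]_(x, y, u)` with `p² = u q`,
`p q = u y p + u² x²`, `q² = u y q + u x² p` (that is `p = u z`, `q = u z²` for a root `z` of
`z³ = y z + x²`), and `P = (x, u, p, q)`.
-/

namespace Pool.Agent.Results.MP_abdb7d_ag.NotLocal

open Pool.Agent.R688.AN.Cech

/-- `F`-anti-nilpotency of a local ring whose maximal ideal is the radical of the ideal generated
by the `f j`: all local cohomology modules, computed by the Čech complex on `f`, with their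
Frobenius actions, are anti-nilpotent. -/
def IsFAntiNilpotent (p : ℕ) [Fact p.Prime] {R : Type} [CommRing R] [CharP R p] {n : ℕ}
    (f : Fin n → R) : Prop :=
  ∀ i : ℕ, IsAntiNilpotent (frobH p f i)

theorem result :
    ∃ (R : Type) (_ : CommRing R) (_ : IsNoetherianRing R) (_ : IsLocalRing R) (_ : CharP R 2)
      (f : Fin 3 → R) (P : Ideal R) (_ : P.IsPrime)
      (RP : Type) (_ : CommRing RP) (_ : Algebra R RP) (_ : IsLocalization.AtPrime RP P)
      (_ : IsLocalRing RP) (_ : CharP RP 2) (g : Fin 2 → RP),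
      (Ideal.span (Set.range f)).radical = IsLocalRing.maximalIdeal R ∧
      IsFAntiNilpotent 2 f ∧
      (Ideal.span (Set.range g)).radical = IsLocalRing.maximalIdeal RP ∧
      ¬ IsFAntiNilpotent 2 g :=
  ⟨Pool.Agent.R688.AN.Final.RR, inferInstance, inferInstance, inferInstance, inferInstance,
    Pool.Agent.R688.AN.Final.f, Pool.Agent.R688.AN.Final.P, inferInstance,
    Pool.Agent.R688.AN.Final.RP, inferInstance, inferInstance, inferInstance, inferInstance,
    inferInstance, Pool.Agent.R688.AN.Final.g,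
    Pool.Agent.R688.AN.Final.rad_f, Pool.Agent.R688.AN.Final.pos,
    Pool.Agent.R688.AN.Final.rad_g, fun h => Pool.Agent.R688.AN.Final.neg (h 2)⟩

end Pool.Agent.Results.MP_abdb7d_ag.NotLocal
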